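import Mathlib
open Set Cardinal
namespace Pool.Agent.Results.MP_4ec73f_lc.Count

def isoSetoid : Setoid (BooleanSubalgebra (Set ℝ)) where
  r B C := Nonempty (B ≃o C)
  iseqv := ⟨fun _ => ⟨OrderIso.refl _⟩, fun ⟨f⟩ => ⟨f.symm⟩, fun ⟨f⟩ ⟨g⟩ => ⟨f.trans g⟩⟩

open Classical in
def A (X : Set ℝ) : Set (Finset ℝ × Finset (Finset ℝ)) := {g | g.1.filter (· ∈ X) ∈ g.2}

def P (e : ℝ → Finset ℝ × Finset (Finset ℝ)) (T : Set (Set ℝ)) (S : Set ℝ) : Prop :=
  ∃ T0 : Set (Set ℝ), T0.Finite ∧ T0 ⊆ T ∧ ∃ F : Set ℝ, F.Finite ∧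
    ∀ x ∉ F, ∀ y ∉ F, (∀ Y ∈ T0, e x ∈ A Y ↔ e y ∈ A Y) → (x ∈ S ↔ y ∈ S)

lemma P_two {e T S S'} (h : P e T S) (h' : P e T S') (R : Set ℝ)
    (hR : ∀ x y, (x ∈ S ↔ y ∈ S) → (x ∈ S' ↔ y ∈ S') → (x ∈ R ↔ y ∈ R)) : P e T R := by
  obtain ⟨T0, h1, h2, F, h3, h4⟩ := h
  obtain ⟨T0', h1', h2', F', h3', h4'⟩ := h'
  refine ⟨T0 ∪ T0', h1.union h1', union_subset h2 h2', F ∪ F', h3.union h3', ?_⟩
  intro x hx y hy hY
  simp only [mem_union, not_or] at hx hy
  exact hR x y (h4 x hx.1 y hy.1 fun Y h => hY Y (Or.inl h))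
    (h4' x hx.2 y hy.2 fun Y h => hY Y (Or.inr h))

def alg (e : ℝ → Finset ℝ × Finset (Finset ℝ)) (T : Set (Set ℝ)) : BooleanSubalgebra (Set ℝ) where
  carrier := {S | P e T S}
  supClosed' := fun S hS S' hS' => P_two hS hS' _ fun x y h h' => by
    simp only [sup_eq_union, mem_union, h, h']
  infClosed' := fun S hS S' hS' => P_two hS hS' _ fun x y h h' => by
    simp only [inf_eq_inter, mem_inter_iff, h, h']
  compl_mem' := fun {S} hS => P_two hS hS _ fun x y h _ => by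
    simp only [mem_compl_iff, h]
  bot_mem' := ⟨∅, finite_empty, empty_subset _, ∅, finite_empty, fun x _ y _ _ => by simp⟩

lemma mem_alg {e T S} : S ∈ alg e T ↔ P e T S := Iff.rfl

lemma sing_mem (e T) (z : ℝ) : ({z} : Set ℝ) ∈ alg e T := by
  rw [mem_alg]
  refine ⟨∅, finite_empty, empty_subset _, {z}, finite_singleton _, fun x hx y hy _ => ?_⟩
  exact iff_of_false hx hy

lemma A_mem (e : ℝ ≃ Finset ℝ × Finset (Finset ℝ)) (T : Set (Set ℝ)) (X : Set ℝ) :
    e ⁻¹' A X ∈ alg e T ↔ X ∈ T := by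
  classical
  rw [mem_alg]
  constructor
  · rintro ⟨T0, h1, h2, F, h3, h4⟩
    by_contra hX
    have hsep : ∀ Y ∈ T0, ∃ p : ℝ, ¬ (p ∈ X ↔ p ∈ Y) := by
      intro Y hY
      by_contra hc
      push Not at hc
      exact hX ((Set.ext hc : X = Y) ▸ h2 hY)
    choose! p hp using hsep
    have hU : (⋃ x ∈ F, ((e x).1 : Set ℝ)).Finite := h3.biUnion fun x _ => Finset.finite_toSet _
    obtain ⟨q, hq⟩ := hU.infinite_compl.nonempty
    set s : Finset ℝ := insert q (h1.toFinset.image p) with hs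
    have hnF : ∀ φ, e.symm (s, φ) ∉ F := by
      intro φ hφ
      apply hq
      simp only [mem_iUnion]
      exact ⟨_, hφ, by simp [hs]⟩
    have key := h4 _ (hnF ∅) _ (hnF {s.filter (· ∈ X)}) (by
      intro Y hY
      simp only [Equiv.apply_symm_apply, A, mem_ofPred_eq, Finset.notMem_empty,
        Finset.mem_singleton, false_iff]
      intro hc
      apply hp Y hY
      have hps : p Y ∈ s := by
        simp only [hs, Finset.mem_insert, Finset.mem_image]
        exact Or.inr ⟨Y, by simpa using hY, rfl⟩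
      have := Finset.ext_iff.mp hc (p Y)
      simp only [Finset.mem_filter, hps, true_and] at this
      exact this.symm)
    simp [A] at key
  · intro hX
    exact ⟨{X}, finite_singleton _, singleton_subset_iff.mpr hX, ∅, finite_empty,
      fun x _ y _ h => h X rfl⟩

lemma alg_inj (e : ℝ ≃ Finset ℝ × Finset (Finset ℝ)) : Function.Injective (alg e) := by
  intro T T' h
  ext X
  rw [← A_mem e T, h, A_mem]

lemma iso_pre {B C : BooleanSubalgebra (Set ℝ)} (f : B ≃o C) (hC : ∀ z : ℝ, ({z} : Set ℝ) ∈ C) :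
    ∃ τ : ℝ → ℝ, (C : Set (Set ℝ)) = (fun S => τ ⁻¹' S) '' B := by
  have hne : ∀ z : ℝ, ∃ x, x ∈ ((f.symm ⟨{z}, hC z⟩ : B) : Set ℝ) := by
    intro z
    by_contra hc
    push Not at hc
    have h1 : f.symm ⟨{z}, hC z⟩ = ⊥ := Subtype.ext (eq_empty_of_forall_notMem hc)
    have h2 : (⟨{z}, hC z⟩ : C) = ⊥ := by
      rw [← f.apply_symm_apply ⟨{z}, hC z⟩, h1, map_bot]
    exact (singleton_nonempty z).ne_empty (congrArg Subtype.val h2)
  choose τ hτ using hne
  have h1 : ∀ (S : B) (y : ℝ), y ∈ (f S : Set ℝ) → τ y ∈ (S : Set ℝ) := by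
    intro S y hy
    have : (⟨{y}, hC y⟩ : C) ≤ f S := singleton_subset_iff.mpr hy
    have h2 : f.symm ⟨{y}, hC y⟩ ≤ S := by
      rw [← f.symm_apply_apply S]; exact f.symm.monotone this
    exact h2 (hτ y)
  have h2 : ∀ S : B, (f S : Set ℝ) = τ ⁻¹' S := by
    intro S
    ext y
    refine ⟨h1 S y, fun hy => ?_⟩
    by_contra hc
    have h3 : y ∈ (f Sᶜ : Set ℝ) := by rw [map_compl']; exact hc
    exact h1 _ _ h3 hy
  refine ⟨τ, ?_⟩
  ext S
  constructor
  · intro hS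
    refine ⟨f.symm ⟨S, hS⟩, (f.symm ⟨S, hS⟩).2, ?_⟩
    simp only [← h2, OrderIso.apply_symm_apply]
  · rintro ⟨S', hS', rfl⟩
    have := h2 ⟨S', hS'⟩
    simp only at this ⊢
    rw [← this]
    exact (f _).2

theorem result : #(Quotient isoSetoid) = 2 ^ (2 : Cardinal) ^ 𝔠 := by
  have hS : #(Set (Set ℝ)) = 2 ^ (2 : Cardinal) ^ 𝔠 := by simp [mk_real]
  apply le_antisymm
  · rw [← hS]
    exact mk_quotient_le.trans (mk_le_of_injective SetLike.coe_injective)
  · obtain ⟨e⟩ : Nonempty (ℝ ≃ Finset ℝ × Finset (Finset ℝ)) := by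
      rw [← Cardinal.eq]; simp
    have hτ : ∀ T, ∃ τ : ℝ → ℝ, (alg e T : Set (Set ℝ)) =
        (fun S => τ ⁻¹' S) '' (Quotient.mk isoSetoid (alg e T)).out := by
      intro T
      obtain ⟨f⟩ := Quotient.mk_out (s := isoSetoid) (alg e T)
      exact iso_pre f (sing_mem e T)
    choose τ hτ using hτ
    have hinj : Function.Injective fun T => (Quotient.mk isoSetoid (alg e T), τ T) := by
      intro T T' h
      simp only [Prod.mk.injEq] at h
      apply alg_inj e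
      apply SetLike.coe_injective
      rw [hτ T, hτ T', h.1, h.2]
    have hle := mk_le_of_injective hinj
    rw [hS] at hle
    simp only [mk_prod, lift_id, mk_pi, prod_const, mk_real] at hle
    have hc : (𝔠 : Cardinal.{0}) ^ (𝔠 : Cardinal.{0}) = 2 ^ (𝔠 : Cardinal.{0}) :=
      power_self_eq aleph0_le_continuum
    rw [hc] at hle
    by_contra hlt
    push Not at hlt
    have hinf : ℵ₀ ≤ 2 ^ (2 : Cardinal) ^ 𝔠 :=
      aleph0_le_continuum.trans ((cantor _).le.trans (cantor _).le)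
    exact absurd hle (not_le.mpr (mul_lt_of_lt hinf hlt (cantor _)))

end Pool.Agent.Results.MP_4ec73f_lc.Count
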